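import Pool.Agent.Q37.TW.Defs

/-! # A Cohen–Macaulay ring has no embedded primes -/

set_option autoImplicit false

namespace Q37.TW

open IsLocalRing

universe u

theorem no_embedded {A : Type u} [CommRing A] (h : IsCohenMacaulayRing A) (p p' : Ideal A)
    [hp : p.IsPrime] [hp' : p'.IsPrime] (hlt : p' < p) (a : A)
    (ha : ∀ x ∈ p, ∃ s, s ∉ p ∧ s * (x * a) = 0) (ha0 : ∀ s, s ∉ p → s * a ≠ 0) : False := by
  obtain ⟨-, rs, hmem, hreg, hdim⟩ := h.2 p
  have hz : ∀ r ∈ maximalIdeal (Localization.AtPrime p),
      r * algebraMap A (Localization.AtPrime p) a = 0 := by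
    intro r hr
    obtain ⟨⟨x, s⟩, hxs⟩ := IsLocalization.surj p.primeCompl r
    have hx : x ∈ p := by
      rw [← IsLocalization.AtPrime.to_map_mem_maximal_iff (Localization.AtPrime p) p, ← hxs]
      exact Ideal.mul_mem_right _ _ hr
    obtain ⟨t, ht, hta⟩ := ha x hx
    have hst : IsUnit (algebraMap A (Localization.AtPrime p) (t * s)) := by
      rw [map_mul]
      exact (IsLocalization.map_units _ (⟨t, ht⟩ : p.primeCompl)).mul (IsLocalization.map_units _ s)
    rw [← hst.mul_right_eq_zero]
    have : algebraMap A (Localization.AtPrime p) (t * s) * (r * algebraMap A _ a) =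
        algebraMap A _ t * (r * algebraMap A _ s) * algebraMap A _ a := by
      rw [map_mul]; ring
    rw [this, hxs, mul_assoc, ← map_mul, ← map_mul, hta, map_zero]
  have hne : algebraMap A (Localization.AtPrime p) a ≠ 0 := by
    intro h0
    rw [IsLocalization.map_eq_zero_iff p.primeCompl] at h0
    obtain ⟨s, hs⟩ := h0
    exact ha0 s s.2 hs
  have hnil : rs = [] := by
    rcases rs with _ | ⟨r, rs⟩
    · rfl
    · exfalso
      have h1 := hreg.toIsWeaklyRegular
      rw [RingTheory.Sequence.isWeaklyRegular_cons_iff] at h1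
      have h2 := h1.1
      have h3 := hz r (hmem r (by simp))
      have : r • algebraMap A (Localization.AtPrime p) a = r • (0 : Localization.AtPrime p) := by
        rw [smul_zero, smul_eq_mul, h3]
      exact hne (h2 this)
  subst hnil
  rw [IsLocalization.AtPrime.ringKrullDim_eq_height p] at hdim
  have h0 : p.height = 0 := by
    have : ((p.height : ℕ∞) : WithBot ℕ∞) = ((0 : ℕ∞) : WithBot ℕ∞) := by
      rw [← hdim]; rfl
    exact_mod_cast this
  rw [Ideal.height_eq_zero_iff] at h0
  exact hlt.not_ge (h0.2 ⟨hp', bot_le⟩ hlt.le)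

end Q37.TW
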