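import Mathlib

/-! # Weighted edge ideals of trees: definitions -/

set_option autoImplicit false

namespace Q37.TW

open IsLocalRing

universe u

/-- A Noetherian local ring is Cohen–Macaulay: there is a regular sequence in the maximal ideal
whose length is the Krull dimension. -/
def IsCohenMacaulayLocalRing (S : Type u) [CommRing S] [IsLocalRing S] : Prop :=
  IsNoetherianRing S ∧ ∃ rs : List S, (∀ r ∈ rs, r ∈ maximalIdeal S) ∧
    RingTheory.Sequence.IsRegular S rs ∧ (rs.length : WithBot ℕ∞) = ringKrullDim S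

/-- A commutative ring is Cohen–Macaulay: it is Noetherian and all its localizations at prime
ideals are Cohen–Macaulay local rings. -/
def IsCohenMacaulayRing (R : Type u) [CommRing R] : Prop :=
  IsNoetherianRing R ∧ ∀ (p : Ideal R) [p.IsPrime],
    IsCohenMacaulayLocalRing (Localization.AtPrime p)

/-- The weighted edge ideal `I(G_ω) = ((u v) ^ ω(uv) : uv ∈ E(G))` in `K[V(G)]`. -/
noncomputable def weightedEdgeIdeal {V : Type} (K : Type u) [Field K] (G : SimpleGraph V)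
    (ω : Sym2 V → ℕ) : Ideal (MvPolynomial V K) :=
  Ideal.span {f | ∃ a b, G.Adj a b ∧ f = (MvPolynomial.X a * MvPolynomial.X b) ^ ω s(a, b)}

/-- Admissible weighted trees: `G` is a tree with positive edge weights and with a perfect matching
`x_1 y_1, …, x_t y_t` in which every `y_i` is a leaf; with `ω_ij = ω(x_i x_j)` and
`m_i = ω(x_i y_i)`,
* `2 ω_ij ≤ min {m_i, m_j}` for every edge `x_i x_j`;
* for distinct edges `x_i x_j`, `x_j x_k`: `ω_ij ≠ ω_jk`, and if `ω_ij < ω_jk` then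
  `m_i ≥ ω_ij ⌈ω_jk / (ω_jk - ω_ij)⌉` and `m_k ≥ ω_jk (⌈ω_jk / (ω_jk - ω_ij)⌉ - 2)`. -/
def Admissible {V : Type} (G : SimpleGraph V) (ω : Sym2 V → ℕ) : Prop :=
  G.IsTree ∧ (∀ e ∈ G.edgeSet, 0 < ω e) ∧
  ∃ (t : ℕ) (x y : Fin t → V), Function.Bijective (Sum.elim x y) ∧
    (∀ i, G.Adj (x i) (y i)) ∧ (∀ i v, G.Adj (y i) v → v = x i) ∧
    (∀ i j, G.Adj (x i) (x j) →
      2 * ω s(x i, x j) ≤ min (ω s(x i, y i)) (ω s(x j, y j))) ∧
    ∀ i j k, i ≠ k → G.Adj (x i) (x j) → G.Adj (x j) (x k) →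
      ω s(x i, x j) ≠ ω s(x j, x k) ∧
      (ω s(x i, x j) < ω s(x j, x k) →
        (ω s(x i, x j) : ℤ) *
          ⌈(ω s(x j, x k) : ℚ) / ((ω s(x j, x k) : ℚ) - (ω s(x i, x j) : ℚ))⌉ ≤
            (ω s(x i, y i) : ℤ) ∧
        (ω s(x j, x k) : ℤ) *
          (⌈(ω s(x j, x k) : ℚ) / ((ω s(x j, x k) : ℚ) - (ω s(x i, x j) : ℚ))⌉ - 2) ≤
            (ω s(x k, y k) : ℤ))

end Q37.TW
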