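import Pool.Agent.Q37.TW.CM

set_option autoImplicit false

namespace Q37.TW

open IsLocalRing MvPolynomial

universe u

/-- `x_1, …, x_4` are `0, 1, 2, 3` and `y_1, …, y_4` are `4, 5, 6, 7`. -/
def adjB : Fin 8 → Fin 8 → Bool := fun a b =>
  (a.val + 1 == b.val && b.val < 4) || (b.val + 1 == a.val && a.val < 4) ||
  (a.val + 4 == b.val) || (b.val + 4 == a.val)

def wt : Fin 8 → Fin 8 → ℕ := fun a b =>
  if a.val + b.val = 1 then 4 else if a.val + b.val = 3 then 2 else if a.val + b.val = 5 then 3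
  else if a.val + b.val = 4 then 8 else if a.val + b.val = 6 then 8 else 6

lemma adjB_symm : ∀ a b, adjB a b = adjB b a := by decide

lemma wt_symm : ∀ a b, wt a b = wt b a := by decide

def GG : SimpleGraph (Fin 8) where
  Adj a b := adjB a b = true
  symm := ⟨fun a b h => by rw [adjB_symm]; exact h⟩
  loopless := ⟨by decide⟩

instance : DecidableRel GG.Adj := fun a b => inferInstanceAs (Decidable (adjB a b = true))

def ww : Sym2 (Fin 8) → ℕ := Sym2.lift ⟨wt, wt_symm⟩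

lemma ww_mk (a b : Fin 8) : ww s(a, b) = wt a b := rfl

lemma conn : GG.Connected := by
  have h : ∀ a b, adjB a b = true → GG.Reachable a b := fun a b h => SimpleGraph.Adj.reachable h
  have h1 := h 0 1 (by decide)
  have h2 := h1.trans (h 1 2 (by decide))
  have h3 := h2.trans (h 2 3 (by decide))
  have h4 := h 0 4 (by decide)
  have h5 := h1.trans (h 1 5 (by decide))
  have h6 := h2.trans (h 2 6 (by decide))
  have h7 := h3.trans (h 3 7 (by decide))
  have hr : ∀ a, GG.Reachable 0 a := by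
    intro a
    fin_cases a
    · exact SimpleGraph.Reachable.refl _
    · exact h1
    · exact h2
    · exact h3
    · exact h4
    · exact h5
    · exact h6
    · exact h7
  exact ⟨fun a b => (hr a).symm.trans (hr b)⟩

lemma tree : GG.IsTree := by
  rw [SimpleGraph.isTree_iff_connected_and_card]
  refine ⟨conn, ?_⟩
  rw [Nat.card_eq_fintype_card, Nat.card_eq_fintype_card, Fintype.card_fin,
    ← SimpleGraph.edgeFinset_card]
  decide

lemma adm : Admissible GG ww := by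
  refine ⟨tree, ?_, 4, fun i => ⟨i.val, by omega⟩, fun i => ⟨i.val + 4, by omega⟩, ?_, ?_, ?_, ?_, ?_⟩
  · intro e he
    induction e with
    | _ a b => rw [ww_mk]; unfold wt; split_ifs <;> norm_num
  · decide
  · decide
  · decide
  · decide
  · have h1 : ⌈(4 : ℚ) / (4 - 2)⌉ = 2 := by norm_num
    have h2 : ⌈(3 : ℚ) / (3 - 2)⌉ = 3 := by norm_num
    intro i j k hik h12 h23
    fin_cases i <;> fin_cases j <;> fin_cases k <;>
      first
      | exact absurd h12 (by decide)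
      | exact absurd h23 (by decide)
      | exact absurd rfl hik
      | skip
    all_goals simp [ww_mk, wt]
    all_goals norm_num


/-! ### monomials in the powers of the ideal -/

section alg

variable (K : Type u) [Field K]

def ea : Fin 7 → Fin 8 := ![0, 1, 2, 0, 1, 2, 3]
def eb : Fin 7 → Fin 8 := ![1, 2, 3, 4, 5, 6, 7]
def ew : Fin 7 → ℕ := ![4, 2, 3, 8, 8, 6, 6]

noncomputable def gx (i : Fin 7) : Fin 8 →₀ ℕ := Finsupp.single (ea i) (ew i) + Finsupp.single (eb i) (ew i)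

def TT (n : ℕ) : Set (Fin 8 →₀ ℕ) := {e | ∃ k : Fin 7 → ℕ, ∑ i, k i = n ∧ e = ∑ i, k i • gx i}

noncomputable def TI (n : ℕ) : Ideal (MvPolynomial (Fin 8) K) :=
  Ideal.span ((fun s => monomial s (1 : K)) '' TT n)

lemma edge_cases : ∀ a b, adjB a b = true → ∃ i, wt a b = ew i ∧
    ((a = ea i ∧ b = eb i) ∨ (b = ea i ∧ a = eb i)) := by decide

lemma XX_pow (a b : Fin 8) (w : ℕ) : ((X a * X b) ^ w : MvPolynomial (Fin 8) K) =
    monomial (Finsupp.single a w + Finsupp.single b w) 1 := by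
  rw [mul_pow, X_pow_eq_monomial, X_pow_eq_monomial, monomial_mul, one_mul]

lemma I_le : weightedEdgeIdeal K GG ww ≤ TI K 1 := by
  unfold weightedEdgeIdeal
  rw [Ideal.span_le]
  rintro f ⟨a, b, hab, rfl⟩
  obtain ⟨i, hi, h⟩ := edge_cases a b hab
  rw [ww_mk, hi, XX_pow]
  refine Ideal.subset_span ⟨gx i, ⟨Pi.single i 1, ?_, ?_⟩, ?_⟩
  · simp
  · rw [Finset.sum_eq_single i]
    · simp
    · intro j _ hj; simp [hj]
    · intro h; simp at h
  · rcases h with ⟨rfl, rfl⟩ | ⟨rfl, rfl⟩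
    · rfl
    · show monomial (gx i) 1 = _
      rw [gx, add_comm]

lemma TI_mul (a b : ℕ) : TI K a * TI K b ≤ TI K (a + b) := by
  unfold TI
  rw [Ideal.span_mul_span', Ideal.span_le]
  rintro _ ⟨_, ⟨s, ⟨k, hk, rfl⟩, rfl⟩, _, ⟨t, ⟨l, hl, rfl⟩, rfl⟩, rfl⟩
  refine Ideal.subset_span ⟨∑ i, (k i + l i) • gx i, ⟨fun i => k i + l i, ?_, rfl⟩, ?_⟩
  · rw [Finset.sum_add_distrib, hk, hl]
  · simp only [monomial_mul, one_mul, ← Finset.sum_add_distrib, add_smul]

lemma I_pow_le (n : ℕ) : weightedEdgeIdeal K GG ww ^ n ≤ TI K n := by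
  induction n with
  | zero =>
    have : (1 : MvPolynomial (Fin 8) K) ∈ TI K 0 := by
      refine Ideal.subset_span ⟨0, ⟨0, by simp, by simp⟩, ?_⟩
      rfl
    rw [(Ideal.eq_top_iff_one _).2 this]
    exact le_top
  | succ n ih =>
    rw [pow_succ]
    exact (Ideal.mul_mono ih (I_le K)).trans (TI_mul K n 1)

lemma gen_mem (i : Fin 7) : ((X (ea i) * X (eb i)) ^ ew i : MvPolynomial (Fin 8) K) ∈
    weightedEdgeIdeal K GG ww := by
  refine Ideal.subset_span ⟨ea i, eb i, ?_, ?_⟩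
  · revert i; decide
  · have : ∀ i, wt (ea i) (eb i) = ew i := by decide
    rw [ww_mk, this]

/-! ### primes generated by variables -/

lemma prime_span (S : Finset (Fin 8)) :
    (Ideal.span (X '' (S : Set (Fin 8)) : Set (MvPolynomial (Fin 8) K))).IsPrime := by
  classical
  let φ : MvPolynomial (Fin 8) K →ₐ[K] MvPolynomial (Fin 8) K :=
    aeval fun i => if i ∈ S then 0 else X i
  have h1 : ∀ f, f - φ f ∈ Ideal.span (X '' (S : Set (Fin 8)) : Set (MvPolynomial (Fin 8) K)) := by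
    intro f
    induction f using MvPolynomial.induction_on with
    | C a => simp [φ]
    | add p q hp hq =>
      have : p + q - φ (p + q) = (p - φ p) + (q - φ q) := by rw [map_add]; ring
      rw [this]; exact add_mem hp hq
    | mul_X p i hp =>
      have hX : (X i : MvPolynomial (Fin 8) K) - φ (X i) ∈
          Ideal.span (X '' (S : Set (Fin 8)) : Set (MvPolynomial (Fin 8) K)) := by
        simp only [φ, aeval_X]
        split_ifs with hi
        · rw [sub_zero]; exact Ideal.subset_span ⟨i, hi, rfl⟩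
        · rw [sub_self]; exact zero_mem _
      have : p * X i - φ (p * X i) = (p - φ p) * X i + φ p * (X i - φ (X i)) := by
        rw [map_mul]; ring
      rw [this]
      exact add_mem (Ideal.mul_mem_right _ _ hp) (Ideal.mul_mem_left _ _ hX)
  have h2 : Ideal.span (X '' (S : Set (Fin 8)) : Set (MvPolynomial (Fin 8) K)) = RingHom.ker φ := by
    apply le_antisymm
    · rw [Ideal.span_le]
      rintro _ ⟨i, hi, rfl⟩
      show φ (X i) = 0
      simp only [φ, aeval_X]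
      rw [if_pos]
      exact hi
    · intro f hf
      have h3 : φ f = 0 := hf
      have h4 := h1 f
      rwa [h3, sub_zero] at h4
  rw [h2]
  exact RingHom.ker_isPrime _

/-- the embedded prime `(x_2, x_3, x_4, y_1, y_4)` -/
noncomputable def PP : Ideal (MvPolynomial (Fin 8) K) :=
  Ideal.span (X '' (({1, 2, 3, 4, 7} : Finset (Fin 8)) : Set (Fin 8)))

/-- the minimal prime `(x_2, x_3, x_4, y_1)` -/
noncomputable def PQ : Ideal (MvPolynomial (Fin 8) K) :=
  Ideal.span (X '' (({1, 2, 3, 4} : Finset (Fin 8)) : Set (Fin 8)))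

instance : (PP K).IsPrime := prime_span K _
instance : (PQ K).IsPrime := prime_span K _

lemma X_mem_PQ {i : Fin 8} (h : i ∈ ({1, 2, 3, 4} : Finset (Fin 8))) : X i ∈ PQ K :=
  Ideal.subset_span ⟨i, h, rfl⟩

lemma I_le_PQ : weightedEdgeIdeal K GG ww ≤ PQ K := by
  unfold weightedEdgeIdeal
  rw [Ideal.span_le]
  rintro f ⟨a, b, hab, rfl⟩
  have h : ∀ a b, adjB a b = true → (a ∈ ({1, 2, 3, 4} : Finset (Fin 8)) ∨
      b ∈ ({1, 2, 3, 4} : Finset (Fin 8))) ∧ wt a b ≠ 0 := by decide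
  obtain ⟨h1, h2⟩ := h a b hab
  refine Ideal.pow_mem_of_mem _ ?_ _ (Nat.pos_of_ne_zero h2)
  rcases h1 with h1 | h1
  · exact Ideal.mul_mem_right _ _ (X_mem_PQ K h1)
  · exact Ideal.mul_mem_left _ _ (X_mem_PQ K h1)

lemma X7_not_mem : (X 7 : MvPolynomial (Fin 8) K) ∉ PQ K := by
  unfold PQ
  rw [mem_ideal_span_X_image]
  intro h
  obtain ⟨i, hi, h2⟩ := h (Finsupp.single 7 1) (by rw [support_X]; simp)
  rw [Finsupp.single_apply] at h2
  split_ifs at h2 with h3
  · subst h3; exact absurd hi (by decide)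
  · exact h2 rfl

lemma PQ_le : PQ K ≤ PP K := by
  refine Ideal.span_mono (Set.image_mono ?_)
  intro i hi
  have : ({1, 2, 3, 4} : Finset (Fin 8)) ⊆ {1, 2, 3, 4, 7} := by decide
  exact this hi

/-- the monomial `x_2^9 x_3^12 x_4^11 y_1^7 y_4^5` -/
noncomputable def UU : MvPolynomial (Fin 8) K := X 1 ^ 9 * X 2 ^ 12 * X 3 ^ 11 * X 4 ^ 7 * X 7 ^ 5

lemma six {f g₁ g₂ g₃ g₄ g₅ g₆ c : MvPolynomial (Fin 8) K} {I : Ideal (MvPolynomial (Fin 8) K)}
    (h1 : g₁ ∈ I) (h2 : g₂ ∈ I) (h3 : g₃ ∈ I) (h4 : g₄ ∈ I) (h5 : g₅ ∈ I) (h6 : g₆ ∈ I)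
    (h : f = g₁ * g₂ * g₃ * g₄ * g₅ * g₆ * c) : f ∈ I ^ 6 := by
  rw [h]
  refine Ideal.mul_mem_right _ _ ?_
  have e : I ^ 6 = I * I * I * I * I * I := by ring
  rw [e]
  exact Ideal.mul_mem_mul (Ideal.mul_mem_mul (Ideal.mul_mem_mul (Ideal.mul_mem_mul
    (Ideal.mul_mem_mul h1 h2) h3) h4) h5) h6

lemma var_mem : ∀ i ∈ ({1, 2, 3, 4, 7} : Finset (Fin 8)),
    X 0 ^ 16 * (X i * UU K) ∈ weightedEdgeIdeal K GG ww ^ 6 := by
  have g0 := gen_mem K 0
  have g1 := gen_mem K 1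
  have g2 := gen_mem K 2
  have g3 := gen_mem K 3
  have g6 := gen_mem K 6
  simp only [ea, eb, ew, Matrix.cons_val] at g0 g1 g2 g3 g6
  intro i hi
  simp only [Finset.mem_insert, Finset.mem_singleton] at hi
  rcases hi with rfl | rfl | rfl | rfl | rfl
  · refine six K g1 g1 g1 g0 g2 g2 (c := X 0 ^ 12 * X 3 ^ 5 * X 4 ^ 7 * X 7 ^ 5) ?_
    unfold UU; ring
  · refine six K g1 g1 g0 g2 g2 g2 (c := X 0 ^ 12 * X 1 * X 3 ^ 2 * X 4 ^ 7 * X 7 ^ 5) ?_
    unfold UU; ring
  · refine six K g0 g0 g2 g2 g2 g2 (c := X 0 ^ 8 * X 1 * X 4 ^ 7 * X 7 ^ 5) ?_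
    unfold UU; ring
  · refine six K g3 g0 g0 g2 g2 g2 (c := X 1 * X 2 ^ 3 * X 3 ^ 2 * X 7 ^ 5) ?_
    unfold UU; ring
  · refine six K g6 g1 g1 g1 g1 g2 (c := X 0 ^ 16 * X 1 * X 2 * X 3 ^ 2 * X 4 ^ 7) ?_
    unfold UU; ring

lemma PP_mem {z : MvPolynomial (Fin 8) K} (hz : z ∈ PP K) :
    X 0 ^ 16 * (z * UU K) ∈ weightedEdgeIdeal K GG ww ^ 6 := by
  unfold PP at hz
  induction hz using Submodule.span_induction with
  | mem x hx =>
    obtain ⟨i, hi, rfl⟩ := hx
    exact var_mem K i hi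
  | zero => simp
  | add x y _ _ h1 h2 =>
    have : X 0 ^ 16 * ((x + y) * UU K) = X 0 ^ 16 * (x * UU K) + X 0 ^ 16 * (y * UU K) := by ring
    rw [this]; exact add_mem h1 h2
  | smul a x _ h1 =>
    have : X 0 ^ 16 * ((a • x) * UU K) = a * (X 0 ^ 16 * (x * UU K)) := by
      rw [smul_eq_mul]; ring
    rw [this]; exact Ideal.mul_mem_left _ _ h1

noncomputable def ux : Fin 8 →₀ ℕ := Finsupp.single 1 9 + Finsupp.single 2 12 + Finsupp.single 3 11 +
  Finsupp.single 4 7 + Finsupp.single 7 5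

lemma UU_eq : UU K = monomial ux 1 := by
  unfold UU ux
  simp only [X_pow_eq_monomial, monomial_mul, one_mul]

lemma not_mem {s : MvPolynomial (Fin 8) K} (hs : s ∉ PP K) :
    s * UU K ∉ weightedEdgeIdeal K GG ww ^ 6 := by
  intro h
  have h1 := I_pow_le K 6 h
  unfold PP at hs
  rw [mem_ideal_span_X_image] at hs
  push Not at hs
  obtain ⟨e, he, he0⟩ := hs
  unfold TI at h1
  rw [mem_ideal_span_monomial_image] at h1
  obtain ⟨t, ⟨k, hk, rfl⟩, hle⟩ := h1 (e + ux) (by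
    rw [mem_support_iff, UU_eq, coeff_mul_monomial, mul_one]
    exact mem_support_iff.1 he)
  have e1 := he0 1 (by decide)
  have e2 := he0 2 (by decide)
  have e3 := he0 3 (by decide)
  have e4 := he0 4 (by decide)
  have e7 := he0 7 (by decide)
  have l1 := hle 1
  have l2 := hle 2
  have l3 := hle 3
  have l4 := hle 4
  have l7 := hle 7
  simp only [Fin.sum_univ_seven, Finsupp.add_apply, Finsupp.smul_apply, gx, ea, eb, ew, ux,
    Matrix.cons_val, Finsupp.single_apply, e1, e2, e3, e4, e7, smul_eq_mul] at l1 l2 l3 l4 l7 hk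
  simp at l1 l2 l3 l4 l7
  omega

end alg

end Q37.TW
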