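import Pool.Agent.Q37.TW.Ex

/-! # The sixth power is not Cohen–Macaulay -/

set_option autoImplicit false

namespace Q37.TW

open IsLocalRing MvPolynomial

universe u

theorem not_CM (K : Type u) [Field K] :
    ¬ IsCohenMacaulayRing (MvPolynomial (Fin 8) K ⧸ weightedEdgeIdeal K GG ww ^ 6) := by
  intro h
  set J := weightedEdgeIdeal K GG ww ^ 6 with hJ
  have hJQ : J ≤ PQ K := (Ideal.pow_le_self (by norm_num)).trans (I_le_PQ K)
  have hJP : J ≤ PP K := hJQ.trans (PQ_le K)
  have hs : Function.Surjective (Ideal.Quotient.mk J) := Ideal.Quotient.mk_surjective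
  have hkQ : RingHom.ker (Ideal.Quotient.mk J) ≤ PQ K := by rw [Ideal.mk_ker]; exact hJQ
  have hkP : RingHom.ker (Ideal.Quotient.mk J) ≤ PP K := by rw [Ideal.mk_ker]; exact hJP
  have i1 : (Ideal.map (Ideal.Quotient.mk J) (PP K)).IsPrime := Ideal.map_isPrime_of_surjective hs hkP
  have i2 : (Ideal.map (Ideal.Quotient.mk J) (PQ K)).IsPrime := Ideal.map_isPrime_of_surjective hs hkQ
  have cP : ∀ f, Ideal.Quotient.mk J f ∈ Ideal.map (Ideal.Quotient.mk J) (PP K) → f ∈ PP K := by
    intro f hf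
    have : f ∈ Ideal.comap (Ideal.Quotient.mk J) (Ideal.map (Ideal.Quotient.mk J) (PP K)) := hf
    rwa [Ideal.comap_map_quotientMk, sup_eq_right.2 hJP] at this
  have cQ : ∀ f, Ideal.Quotient.mk J f ∈ Ideal.map (Ideal.Quotient.mk J) (PQ K) → f ∈ PQ K := by
    intro f hf
    have : f ∈ Ideal.comap (Ideal.Quotient.mk J) (Ideal.map (Ideal.Quotient.mk J) (PQ K)) := hf
    rwa [Ideal.comap_map_quotientMk, sup_eq_right.2 hJQ] at this
  refine no_embedded h (Ideal.map (Ideal.Quotient.mk J) (PP K))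
    (Ideal.map (Ideal.Quotient.mk J) (PQ K)) ?_ (Ideal.Quotient.mk J (UU K)) ?_ ?_
  · refine lt_of_le_not_ge (Ideal.map_mono (PQ_le K)) fun hle => ?_
    refine X7_not_mem K (cQ _ (hle (Ideal.mem_map_of_mem _ ?_)))
    exact Ideal.subset_span ⟨7, by simp, rfl⟩
  · intro x hx
    obtain ⟨z, hz, rfl⟩ := (Ideal.mem_map_iff_of_surjective _ hs).1 hx
    refine ⟨Ideal.Quotient.mk J (X 0 ^ 16), fun h0 => ?_, ?_⟩
    · have h1 := Ideal.IsPrime.mem_of_pow_mem inferInstance 16 (cP _ h0)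
      unfold PP at h1
      rw [mem_ideal_span_X_image] at h1
      obtain ⟨i, hi, h2⟩ := h1 (Finsupp.single 0 1) (by rw [support_X]; simp)
      rw [Finsupp.single_apply] at h2
      split_ifs at h2 with h3
      · subst h3; exact absurd hi (by decide)
      · exact h2 rfl
    · rw [← map_mul, ← map_mul, Ideal.Quotient.eq_zero_iff_mem]
      exact PP_mem K hz
  · intro s hs0 h0
    obtain ⟨s, rfl⟩ := hs s
    have hsP : s ∉ PP K := fun h1 => hs0 (Ideal.mem_map_of_mem _ h1)
    rw [← map_mul, Ideal.Quotient.eq_zero_iff_mem] at h0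
    exact not_mem K hsP h0

end Q37.TW
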